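import Pool.Agent.H476Z.BK.Main

set_option autoImplicit false

namespace Pool.Agent.Results.MP_7e1e73_al.ABettiInequality

open Pool.Agent.H476Z.BK

/-- Every Bloch-Kato Lie algebra `L = ⨁_{i ≥ 1} ℒ i` of finite cohomological dimension `n` has
`ω(L) = (n - 1) b₁² - 2 n b₂ ≥ 0` (and `H²` is finite dimensional, so `b₂` is meaningful). -/
theorem result (k : Type*) [Field k] (L : Type*) [LieRing L] [LieAlgebra k L]
    (ℒ : ℕ → Submodule k L) [GradedLieAlgebra ℒ] (h0 : ℒ 0 = ⊥)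
    (hfin : ∀ i, FiniteDimensional k (ℒ i)) (hBK : IsBlochKato ℒ) (n : ℕ) (hn : HasCD ℒ n) :
    Module.Finite k (Hi ℒ 2) ∧
      0 ≤ ((n : ℤ) - 1) * (betti ℒ 1 : ℤ) ^ 2 - 2 * (n : ℤ) * (betti ℒ 2 : ℤ) :=
  haveI := hfin 1
  haveI := hfin 2
  main h0 hBK n hn

end Pool.Agent.Results.MP_7e1e73_al.ABettiInequality
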